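import Pool.Agent.R140.Miss

set_option autoImplicit false

/-!
# MP_94a3a7_co, Q2: the spheres in `S(i, d-1)` with the `g`-numbers of `K(i, d-1)`

Q2 has a positive answer, for all `i` and `d`, and without assuming the inequality of Q1.

Idea: by the Dehn-Sommerville relations `Δ` and `K = K(i, d-1)` have the same face numbers, and by
induction on the size they have the same numbers of missing faces of each size.  So `Δ` has
`q + 1 = n - d` missing faces.  A set of vertices meeting all missing faces has a complement which is
a face, so it has at least `n - d` elements; hence the missing faces are pairwise disjoint.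
-/

open Finset

namespace Pool.Agent.Results.MP_94a3a7_co.UniqueMinimizer

open Pool.Agent.R140.Sph

/-- The `j`-th block: the `q` blocks `j < q` have `i + 1` elements, the block `j = q` has `r + 1`
elements, and the blocks follow each other in `ℕ`. -/
def block (i q r j : ℕ) : Finset ℕ :=
  if j < q then Ico (j * (i + 1)) (j * (i + 1) + (i + 1)) else Ico (j * (i + 1)) (j * (i + 1) + (r + 1))

/-- The blocks `j = 0, …, q`. -/
def blocks (i q r : ℕ) : Finset (Finset ℕ) := (range (q + 1)).image (block i q r)

lemma block_card (i q r j : ℕ) : (block i q r j).card = if j < q then i + 1 else r + 1 := by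
  unfold block
  split_ifs <;> simp

lemma empty_notMem (i q r : ℕ) : ∅ ∉ blocks i q r := by
  intro h
  obtain ⟨j, _, hj⟩ := Finset.mem_image.1 h
  have h1 := block_card i q r j
  rw [hj, Finset.card_empty] at h1
  split_ifs at h1 <;> omega

/-- The complex `K(i, d-1)` for `d = q i + r`, `1 ≤ r ≤ i`: the join of `q` copies of the boundary
complex of the `i`-simplex and the boundary complex of the `r`-simplex. -/
def K (i q r : ℕ) : Cplx := joinBdry (blocks i q r) (empty_notMem i q r)

lemma block_disj {i q r j j' : ℕ} (hri : r ≤ i) (h : j < j') :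
    Disjoint (block i q r j) (block i q r j') := by
  rw [Finset.disjoint_left]
  intro x hx hx'
  have h1 : x < j * (i + 1) + (i + 1) := by
    unfold block at hx
    split_ifs at hx <;> rw [Finset.mem_Ico] at hx <;> omega
  have h2 : j' * (i + 1) ≤ x := by
    unfold block at hx'
    split_ifs at hx' <;> rw [Finset.mem_Ico] at hx' <;> omega
  have h3 : (j + 1) * (i + 1) ≤ j' * (i + 1) := Nat.mul_le_mul_right _ h
  have h4 : (j + 1) * (i + 1) = j * (i + 1) + (i + 1) := by ring
  omega

lemma block_nonempty (i q r j : ℕ) : (block i q r j).Nonempty := by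
  rw [← Finset.card_pos, block_card]
  split_ifs <;> omega

lemma block_inj {i q r : ℕ} (hri : r ≤ i) : Function.Injective (block i q r) := by
  intro j j' h
  by_contra hne
  rcases Nat.lt_or_gt_of_ne hne with hlt | hlt
  · have h1 := block_disj (q := q) hri hlt
    rw [h, disjoint_self] at h1
    exact (block_nonempty i q r j').ne_empty h1
  · have h1 := block_disj (q := q) hri hlt
    rw [h, disjoint_self] at h1
    exact (block_nonempty i q r j').ne_empty h1

/-- **Q2.** Let `i ≥ 1`, `d = q i + r` with `1 ≤ r ≤ i`, and let `Δ` be a sphere in `S(i, d-1)`,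
that is, a `ℤ/2`-homology `(d-1)`-sphere all of whose missing faces have at most `i + 1` vertices.
If `g_j(Δ) = g_j(K(i, d-1))` for all `0 ≤ j ≤ d / 2`, then `Δ` is isomorphic to `K(i, d-1)`. -/
theorem result (i q r : ℕ) (hr : 1 ≤ r) (hri : r ≤ i) (Δ : Cplx) (hΔ : InS i (q * i + r) Δ)
    (hg : ∀ j ≤ (q * i + r) / 2,
      gNum (q * i + r) Δ.faces j = gNum (q * i + r) (K i q r).faces j) :
    Iso Δ (K i q r) := by
  classical
  have hmem : ∀ B ∈ blocks i q r, ∃ j ≤ q, block i q r j = B := by
    intro B hB
    obtain ⟨j, hj, h⟩ := Finset.mem_image.1 hB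
    exact ⟨j, Nat.lt_succ_iff.1 (Finset.mem_range.1 hj), h⟩
  have hcard : (blocks i q r).card = q + 1 := by
    unfold blocks
    rw [Finset.card_image_of_injective _ (block_inj hri), Finset.card_range]
  have hsum : ∑ B ∈ blocks i q r, B.card = (q * i + r) + (blocks i q r).card := by
    rw [hcard]
    unfold blocks
    rw [Finset.sum_image (fun a _ b _ h => block_inj hri h), Finset.sum_range_succ, block_card,
      if_neg (lt_irrefl q)]
    rw [Finset.sum_congr rfl (g := fun _ => i + 1) (fun j hj => by
      rw [block_card, if_pos (Finset.mem_range.1 hj)])]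
    rw [Finset.sum_const, Finset.card_range, smul_eq_mul]
    ring
  refine unique_jb (blocks i q r) (empty_notMem i q r) ?_ ?_ (q * i + r) i hsum ?_ ?_
    hΔ.1.1.1 (dehnSommerville (eulerian_of_sphere hΔ.1)) hΔ.2 hg
  · intro B hB B' hB' hne
    obtain ⟨j, _, rfl⟩ := hmem B hB
    obtain ⟨j', _, rfl⟩ := hmem B' hB'
    have hjj : j ≠ j' := fun h => hne (by rw [h])
    rcases Nat.lt_or_gt_of_ne hjj with hlt | hlt
    · exact block_disj hri hlt
    · exact (block_disj hri hlt).symm
  · intro B hB
    obtain ⟨j, _, rfl⟩ := hmem B hB
    rw [block_card]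
    split_ifs <;> omega
  · intro B hB
    obtain ⟨j, _, rfl⟩ := hmem B hB
    rw [block_card]
    split_ifs <;> omega
  · intro B hB B' hB' h1 h2
    obtain ⟨j, hj, rfl⟩ := hmem B hB
    obtain ⟨j', hj', rfl⟩ := hmem B' hB'
    rw [block_card] at h1 h2
    have e1 : j = q := by
      by_contra h
      rw [if_pos (by omega)] at h1
      omega
    have e2 : j' = q := by
      by_contra h
      rw [if_pos (by omega)] at h2
      omega
    rw [e1, e2]

end Pool.Agent.Results.MP_94a3a7_co.UniqueMinimizer
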